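import Pool.Agent.Q230.LR.Main0
import Pool.Agent.Q230.LR.Main1
import Pool.Agent.Q230.LR.Rk
import Pool.Agent.Q230.LR.Slp
import Pool.Agent.Q230.LR.PI
import Pool.Agent.Q257.LR.GS0
import Pool.Agent.Q257.LR.IX
import Pool.Agent.Q257.LR.NRM
import Pool.Agent.Q257.LR.RUN
import Pool.Agent.Q257.LR.VC
import Pool.Agent.Q257.LR.VEA
import Pool.Agent.Q257.LR.VEB
import Pool.Agent.Q257.LR.WF
import Pool.Agent.Q63.LR.E1b
import Pool.Agent.Q63.LR.M0
import Pool.Agent.Q63.LR.Rig

/-!
# Entrywise low-rank approximation for `p = 0` and `p = 1` is `∃ℝ`-hard

`LRA0` and `LRA1` are the decision problems of the problem file for `p = 0` and `p = 1`: for a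
rational matrix `A`, a rank bound `k` and a rational `ε > 0`, is there a real matrix `B` of rank at
most `k` with `‖A - B‖_p < ε`? Both are hard for `∃ℝ`; since they are in `∃ℝ` (known), they are
`∃ℝ`-complete.

**Ideas of the proof.** All instances have rank bound `3`, so that a matrix is given by vectors in
`ℝ³` for the rows and the columns. Sums and products are expressed by orthogonality of some of the
vectors, where three rows and three columns are the coordinate vectors.

*`p = 0`.* This gives a matrix with some prescribed entries, which has a completion of rank at most
three iff a system of equations is solvable. The free entries are filled by a rigid matrix: we make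
`m` copies of each row and `m ^ 5` copies of each column, and replace the free entries by Hilbert
matrices, all of whose `4 × 4` minors are nonzero. The number of the free cells times `m ^ 6` changes
suffice iff there is a completion: by the theorem of Kővári, Sós and Turán in each of the blocks
almost all of the entries of a Hilbert matrix have to be changed, and if there are not many more
changes then there are copies of all the rows and columns without any error in the prescribed
entries.

*`p = 1`.* A system is transformed into a straight-line program with inputs in a small interval, and
one has to decide if the output can be negative (this uses a gap theorem). There are two copies of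
each row and each column. The entries of a cell which is not used are `3, -3, -3, 3` (the cost is at
least `12`, with equality for all vectors with small coordinates which are the same in both copies;
differences of the copies only cost more); the cells of the orthogonal pairs have the entries `0`, and
the cost there is the error of the program. The coordinates lie in an interval as the two
copies of a row of the identity have the entries `κ` and `-κ`, with large weights. In one cell all the
entries are `-3`, and there the cost is `12 + 4 δ · output`.

By helper230 (reduction, assembly), helper257 and helper63 (many of the lemmas).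
-/

set_option autoImplicit false

namespace Pool.Agent.Results.MP_d82c50_lc.EntrywiseLowRank

open Pool.Agent.NPC Pool.Agent.NPC.ER Pool.Agent.Q230.LR

/-- For `p = 0` and for `p = 1` the decision problem `LRA_p` is hard for the existential theory of
the reals under polynomial-time many-one reductions. -/
theorem result : ERHard (lang LRA0) ∧ ERHard (lang LRA1) :=
  ⟨ERHard.of_sys (poly_red0 pg pr pi0)
      (red0_iff Q257.LR.gs0 Q257.LR.V.vc Q257.LR.VB.veb tb
        (Q63.LR.m0 Q63.LR.rig Q63.LR.kst) Q257.LR.N.nrm),
    ERHard.of_sys (poly_red1 pg pr pi1)
      (red1_iff Q257.LR.W.wf (slp Q257.LR.W.wf) Q257.LR.R.run Q257.LR.R.bdd Q257.LR.V.vc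
        Q257.LR.VB.veb Q257.LR.VA.vea Q257.LR.VA.ps1 tb Q257.LR.I.ix Q63.LR.e1 Q63.LR.e2
        Q63.LR.e3 Q257.LR.I.ez)⟩

end Pool.Agent.Results.MP_d82c50_lc.EntrywiseLowRank
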